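import Mathlib

/-!
# Symmetrisation: the integral of a symmetric function over `ℝ^n` is `n!` times its
integral over the ordered chamber.
-/

set_option autoImplicit false

open MeasureTheory

namespace Pool.Agent.Hhelper24

variable {n : ℕ}

/-- The cone of strictly increasing vectors. -/
def chamber (n : ℕ) : Set (Fin n → ℝ) := {x | StrictMono x}

lemma measurableSet_chamber (n : ℕ) : MeasurableSet (chamber n) := by
  have : chamber n = ⋂ i : Fin n, ⋂ j : Fin n, ⋂ _ : i < j, {x : Fin n → ℝ | x i < x j} := by
    ext x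
    simp only [chamber, Set.mem_ofPred_eq, Set.mem_iInter]
    exact ⟨fun h i j hij => h hij, fun h i j hij => h i j hij⟩
  rw [this]
  exact MeasurableSet.iInter fun i => MeasurableSet.iInter fun j => MeasurableSet.iInter fun _ =>
    measurableSet_lt (measurable_pi_apply i) (measurable_pi_apply j)

/-- The chamber attached to the permutation `σ`. -/
def chamberOf (σ : Equiv.Perm (Fin n)) : Set (Fin n → ℝ) := {x | StrictMono (x ∘ σ)}

/-- Coordinate permutation as a measurable equivalence. -/
def permE (σ : Equiv.Perm (Fin n)) : (Fin n → ℝ) ≃ᵐ (Fin n → ℝ) :=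
  MeasurableEquiv.arrowCongr' σ (MeasurableEquiv.refl ℝ)

lemma permE_apply (σ : Equiv.Perm (Fin n)) (x : Fin n → ℝ) : permE σ x = x ∘ σ.symm := rfl

lemma permE_mp (σ : Equiv.Perm (Fin n)) : MeasurePreserving (permE σ) volume volume :=
  volume_preserving_arrowCongr' σ (MeasurableEquiv.refl ℝ) (MeasurePreserving.id volume)

lemma chamberOf_eq (σ : Equiv.Perm (Fin n)) : chamberOf σ = permE σ.symm ⁻¹' chamber n := by
  ext x
  simp [chamberOf, chamber, permE_apply]

lemma measurableSet_chamberOf (σ : Equiv.Perm (Fin n)) : MeasurableSet (chamberOf σ) := by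
  rw [chamberOf_eq]
  exact (permE σ.symm).measurable (measurableSet_chamber n)

lemma chamberOf_disjoint : Pairwise (Function.onFun Disjoint (chamberOf (n := n))) := by
  intro σ τ hst
  rw [Function.onFun, Set.disjoint_left]
  intro x hx hy
  apply hst
  have h1 : x ∘ σ = x ∘ τ := Tuple.unique_monotone (StrictMono.monotone hx) (StrictMono.monotone hy)
  have hinj : Function.Injective x := by
    have : Function.Injective (x ∘ σ) := StrictMono.injective hx
    have h2 := this.comp σ.symm.injective
    simpa [Function.comp_assoc] using h2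
  ext i
  have : x (σ i) = x (τ i) := congrFun h1 i
  exact congrArg Fin.val (hinj this)

lemma volume_diag {i j : Fin n} (hij : i ≠ j) :
    volume {x : Fin n → ℝ | x i = x j} = 0 := by
  let φ : (Fin n → ℝ) →ₗ[ℝ] ℝ := LinearMap.proj (R := ℝ) (φ := fun _ : Fin n => ℝ) i -
    LinearMap.proj (R := ℝ) (φ := fun _ : Fin n => ℝ) j
  have h1 : {x : Fin n → ℝ | x i = x j} = (LinearMap.ker φ : Set (Fin n → ℝ)) := by
    ext x
    simp [φ, sub_eq_zero]
  rw [h1]
  apply Measure.addHaar_submodule
  intro h
  have : (Pi.single i (1:ℝ) : Fin n → ℝ) ∈ LinearMap.ker φ := by rw [h]; trivial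
  simp [φ, hij.symm] at this

lemma ae_injective (n : ℕ) : ∀ᵐ x : Fin n → ℝ, Function.Injective x := by
  have : ∀ i j : Fin n, i ≠ j → ∀ᵐ x : Fin n → ℝ, x i ≠ x j := by
    intro i j hij
    rw [ae_iff]
    simpa using volume_diag hij
  have h2 : ∀ᵐ x : Fin n → ℝ, ∀ i j : Fin n, i ≠ j → x i ≠ x j := by
    rw [ae_all_iff]; intro i
    rw [ae_all_iff]; intro j
    by_cases hij : i = j
    · simp [hij]
    · filter_upwards [this i j hij] with x hx _ using hx
  filter_upwards [h2] with x hx i j hij
  by_contra hne
  exact hx i j hne hij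

lemma iUnion_chamberOf_ae : (⋃ σ : Equiv.Perm (Fin n), chamberOf σ) =ᵐ[volume] Set.univ := by
  rw [ae_eq_univ, ← mem_ae_iff (s := ⋃ σ : Equiv.Perm (Fin n), chamberOf σ)]
  filter_upwards [ae_injective n] with x hx
  rw [Set.mem_iUnion]
  exact ⟨Tuple.sort x, (Tuple.monotone_sort x).strictMono_of_injective
    (hx.comp (Tuple.sort x).injective)⟩

/-- The integral of a symmetric function is `n!` times its integral over the chamber. -/
theorem integral_eq_factorial_mul_chamber (f : (Fin n → ℝ) → ℝ) (hf : Integrable f)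
    (hsym : ∀ (σ : Equiv.Perm (Fin n)) (x : Fin n → ℝ), f (x ∘ σ) = f x) :
    ∫ x, f x = (n.factorial : ℝ) * ∫ x in chamber n, f x := by
  rw [← setIntegral_univ, ← setIntegral_congr_set iUnion_chamberOf_ae,
    integral_iUnion_fintype measurableSet_chamberOf chamberOf_disjoint
      (fun _ => hf.integrableOn)]
  have : ∀ σ : Equiv.Perm (Fin n), ∫ x in chamberOf σ, f x = ∫ x in chamber n, f x := by
    intro σ
    rw [chamberOf_eq]
    have h1 := (permE_mp σ.symm).setIntegral_preimage_emb (permE σ.symm).measurableEmbedding f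
      (chamber n)
    rw [← h1]
    refine setIntegral_congr_fun ((permE σ.symm).measurable (measurableSet_chamber n)) ?_
    intro x _
    simp only [permE_apply]
    exact (hsym _ x).symm
  simp only [this, Finset.sum_const, Finset.card_univ, Fintype.card_perm, Fintype.card_fin,
    nsmul_eq_mul]

end Pool.Agent.Hhelper24
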