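import Pool.Agent.Hhelper24.FourFunctions

set_option autoImplicit false

open MeasureTheory ENNReal

namespace Pool.Agent.Hhelper24

/-- A continuous FKG inequality on a measurable sublattice `W` of `ℝ^n` carrying a
log-supermodular density `q`, for an antitone `T` and a monotone `K`. -/
theorem fkg_setIntegral {n : ℕ} {W : Set (Fin n → ℝ)} (hW : MeasurableSet W)
    (hsup : ∀ x ∈ W, ∀ y ∈ W, x ⊔ y ∈ W) (hinf : ∀ x ∈ W, ∀ y ∈ W, x ⊓ y ∈ W)
    {q T K : (Fin n → ℝ) → ℝ} (mq : Measurable q) (mT : Measurable T) (mK : Measurable K)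
    (q0 : ∀ x ∈ W, 0 ≤ q x) (T0 : ∀ x ∈ W, 0 ≤ T x) (K0 : ∀ x ∈ W, 0 ≤ K x)
    (hq : ∀ x ∈ W, ∀ y ∈ W, q x * q y ≤ q (x ⊔ y) * q (x ⊓ y))
    (hT : ∀ x ∈ W, ∀ y ∈ W, x ≤ y → T y ≤ T x)
    (hK : ∀ x ∈ W, ∀ y ∈ W, x ≤ y → K x ≤ K y)
    (iK : IntegrableOn (fun x => q x * K x) W) (iT : IntegrableOn (fun x => q x * T x) W) :
    (∫ x in W, q x * (T x * K x)) * (∫ x in W, q x) ≤
      (∫ x in W, q x * K x) * (∫ x in W, q x * T x) := by
  have conv : ∀ g : (Fin n → ℝ) → ℝ, Measurable g → (∀ x ∈ W, 0 ≤ g x) →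
      ∫ x in W, g x = (∫⁻ x, W.indicator (fun x => ENNReal.ofReal (g x)) x).toReal := by
    intro g mg g0
    rw [lintegral_indicator hW, integral_eq_lintegral_of_nonneg_ae]
    · filter_upwards [ae_restrict_mem hW] with x hx using g0 x hx
    · exact mg.aestronglyMeasurable
  have hfin : ∀ g : (Fin n → ℝ) → ℝ, IntegrableOn g W →
      (∫⁻ x, W.indicator (fun x => ENNReal.ofReal (g x)) x) ≠ ⊤ := by
    intro g ig
    rw [lintegral_indicator hW]
    exact ig.lintegral_lt_top.ne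
  rw [conv (fun x => q x * (T x * K x)) (mq.mul (mT.mul mK)) (fun x hx => mul_nonneg (q0 x hx) (mul_nonneg (T0 x hx) (K0 x hx))),
    conv (fun x => q x) mq q0, conv (fun x => q x * K x) (mq.mul mK) (fun x hx => mul_nonneg (q0 x hx) (K0 x hx)),
    conv (fun x => q x * T x) (mq.mul mT) (fun x hx => mul_nonneg (q0 x hx) (T0 x hx)),
    ← ENNReal.toReal_mul, ← ENNReal.toReal_mul]
  refine ENNReal.toReal_mono (ENNReal.mul_ne_top (hfin _ iK) (hfin _ iT)) ?_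
  refine fourFun_pi n _ _ _ _ ((mq.mul (mT.mul mK)).ennreal_ofReal.indicator hW)
    (mq.ennreal_ofReal.indicator hW) ((mq.mul mK).ennreal_ofReal.indicator hW)
    ((mq.mul mT).ennreal_ofReal.indicator hW) ?_
  intro x y
  by_cases hx : x ∈ W
  swap
  · simp [Set.indicator_of_notMem hx]
  by_cases hy : y ∈ W
  swap
  · simp [Set.indicator_of_notMem hy]
  have hs := hsup x hx y hy
  have hi := hinf x hx y hy
  simp only [Set.indicator_of_mem hx, Set.indicator_of_mem hy, Set.indicator_of_mem hs,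
    Set.indicator_of_mem hi]
  have e0 : 0 ≤ q x * (T x * K x) := mul_nonneg (q0 x hx) (mul_nonneg (T0 x hx) (K0 x hx))
  have e1 : 0 ≤ q (x ⊔ y) * K (x ⊔ y) := mul_nonneg (q0 _ hs) (K0 _ hs)
  rw [← ENNReal.ofReal_mul e0, ← ENNReal.ofReal_mul e1]
  apply ENNReal.ofReal_le_ofReal
  have a1 : T x ≤ T (x ⊓ y) := hT _ hi _ hx inf_le_left
  have a2 : K x ≤ K (x ⊔ y) := hK _ hx _ hs le_sup_left
  calc q x * (T x * K x) * q y = (q x * q y) * (K x * T x) := by ring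
    _ ≤ (q (x ⊔ y) * q (x ⊓ y)) * (K (x ⊔ y) * T (x ⊓ y)) := by
        apply mul_le_mul (hq x hx y hy) (mul_le_mul a2 a1 (T0 x hx) (K0 _ hs))
          (mul_nonneg (K0 x hx) (T0 x hx)) (mul_nonneg (q0 _ hs) (q0 _ hi))
    _ = q (x ⊔ y) * K (x ⊔ y) * (q (x ⊓ y) * T (x ⊓ y)) := by ring

end Pool.Agent.Hhelper24
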