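import Mathlib

/-!
# The continuous four functions theorem (Ahlswede-Daykin / Karlin-Rinott) on `ℝ^n`
-/

set_option autoImplicit false

open MeasureTheory ENNReal

namespace Pool.Agent.Hhelper24

/-- The numerical four functions inequality: from `a ≤ c`, `b ≤ c` and `a * b ≤ c * d`
one gets `a + b ≤ c + d`. -/
lemma ennreal_add_le_add_of_mul_le {a b c d : ℝ≥0∞} (hac : a ≤ c) (hbc : b ≤ c)
    (h : a * b ≤ c * d) : a + b ≤ c + d := by
  rcases eq_or_ne c ⊤ with rfl | hc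
  · simp
  rcases eq_or_ne d ⊤ with rfl | hd
  · simp
  have ha : a ≠ ⊤ := ne_top_of_le_ne_top hc hac
  have hb : b ≠ ⊤ := ne_top_of_le_ne_top hc hbc
  lift a to NNReal using ha
  lift b to NNReal using hb
  lift c to NNReal using hc
  lift d to NNReal using hd
  norm_cast at *
  rcases eq_or_ne c 0 with rfl | hc0
  · simp only [nonpos_iff_eq_zero] at hac hbc
    simp [hac, hbc]
  have hcpos : (0:ℝ) < c := by positivity
  have h1 : (a:ℝ) ≤ c := by exact_mod_cast hac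
  have h2 : (b:ℝ) ≤ c := by exact_mod_cast hbc
  have h3 : (a:ℝ) * b ≤ c * d := by exact_mod_cast h
  have : (c:ℝ) * (a + b) ≤ c * (c + d) := by nlinarith
  have h4 : (a:ℝ) + b ≤ c + d := le_of_mul_le_mul_left this hcpos
  exact_mod_cast h4

/-- The four functions property of a measure on a lattice. -/
def FourFun {α : Type*} [Lattice α] [MeasurableSpace α] (μ : Measure α) : Prop :=
  ∀ f₁ f₂ f₃ f₄ : α → ℝ≥0∞, Measurable f₁ → Measurable f₂ → Measurable f₃ → Measurable f₄ →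
    (∀ x y, f₁ x * f₂ y ≤ f₃ (x ⊔ y) * f₄ (x ⊓ y)) →
    (∫⁻ x, f₁ x ∂μ) * (∫⁻ x, f₂ x ∂μ) ≤ (∫⁻ x, f₃ x ∂μ) * (∫⁻ x, f₄ x ∂μ)

/-- One dimensional case. -/
lemma fourFun_linear {α : Type*} [LinearOrder α] [MeasurableSpace α] (μ : Measure α)
    [SFinite μ] : FourFun μ := by
  intro f₁ f₂ f₃ f₄ m₁ m₂ m₃ m₄ h
  have key : ∀ x y : α, f₁ x * f₂ y + f₁ y * f₂ x ≤ f₃ x * f₄ y + f₃ y * f₄ x := by
    intro x y
    wlog hxy : x ≤ y generalizing x y
    · have := this y x (le_of_not_ge hxy)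
      rw [add_comm (f₁ x * f₂ y), add_comm (f₃ x * f₄ y)]
      exact this
    have e1 : f₁ x * f₂ y ≤ f₃ y * f₄ x := by
      have := h x y; rwa [sup_eq_right.mpr hxy, inf_eq_left.mpr hxy] at this
    have e2 : f₁ y * f₂ x ≤ f₃ y * f₄ x := by
      have := h y x; rwa [sup_eq_left.mpr hxy, inf_eq_right.mpr hxy] at this
    have e3 : f₁ x * f₂ x ≤ f₃ x * f₄ x := by simpa using h x x
    have e4 : f₁ y * f₂ y ≤ f₃ y * f₄ y := by simpa using h y y
    rw [add_comm (f₃ x * f₄ y)]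
    refine ennreal_add_le_add_of_mul_le e1 e2 ?_
    calc f₁ x * f₂ y * (f₁ y * f₂ x) = (f₁ x * f₂ x) * (f₁ y * f₂ y) := by ring
      _ ≤ (f₃ x * f₄ x) * (f₃ y * f₄ y) := mul_le_mul' e3 e4
      _ = f₃ y * f₄ x * (f₃ x * f₄ y) := by ring
  have prodInt : ∀ f g : α → ℝ≥0∞, Measurable f → Measurable g →
      ∫⁻ x, ∫⁻ y, (f x * g y + f y * g x) ∂μ ∂μ
        = 2 * ((∫⁻ x, f x ∂μ) * (∫⁻ x, g x ∂μ)) := by
    intro f g hf hg
    have : ∀ x, ∫⁻ y, (f x * g y + f y * g x) ∂μ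
        = f x * (∫⁻ y, g y ∂μ) + (∫⁻ y, f y ∂μ) * g x := by
      intro x
      rw [lintegral_add_left (hg.const_mul _), lintegral_const_mul _ hg, lintegral_mul_const _ hf]
    simp_rw [this]
    rw [lintegral_add_left (hf.mul_const _), lintegral_mul_const _ hf, lintegral_const_mul _ hg,
      two_mul]
  have h2 : 2 * ((∫⁻ x, f₁ x ∂μ) * (∫⁻ x, f₂ x ∂μ)) ≤ 2 * ((∫⁻ x, f₃ x ∂μ) * (∫⁻ x, f₄ x ∂μ)) := by
    rw [← prodInt f₁ f₂ m₁ m₂, ← prodInt f₃ f₄ m₃ m₄]
    exact lintegral_mono fun x => lintegral_mono fun y => key x y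
  exact (ENNReal.mul_le_mul_iff_right (by norm_num) (by norm_num)).mp h2

/-- Products. -/
lemma FourFun.prod {α β : Type*} [Lattice α] [MeasurableSpace α] [Lattice β] [MeasurableSpace β]
    {μ : Measure α} {ν : Measure β} [SFinite μ] [SFinite ν] (hμ : FourFun μ) (hν : FourFun ν) :
    FourFun (μ.prod ν) := by
  intro f₁ f₂ f₃ f₄ m₁ m₂ m₃ m₄ h
  rw [lintegral_prod _ m₁.aemeasurable, lintegral_prod _ m₂.aemeasurable,
    lintegral_prod _ m₃.aemeasurable, lintegral_prod _ m₄.aemeasurable]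
  refine hμ _ _ _ _ m₁.lintegral_prod_right' m₂.lintegral_prod_right' m₃.lintegral_prod_right'
    m₄.lintegral_prod_right' ?_
  intro x y
  refine hν _ _ _ _ (m₁.comp measurable_prodMk_left) (m₂.comp measurable_prodMk_left)
    (m₃.comp measurable_prodMk_left) (m₄.comp measurable_prodMk_left) ?_
  intro u v
  exact h (x, u) (y, v)

/-- The four functions theorem on `ℝ^n`. -/
theorem fourFun_pi (n : ℕ) : FourFun (volume : Measure (Fin n → ℝ)) := by
  induction n with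
  | zero =>
    intro f₁ f₂ f₃ f₄ m₁ m₂ m₃ m₄ h
    have hu : ∀ f : (Fin 0 → ℝ) → ℝ≥0∞, ∫⁻ x, f x = f default := by
      intro f
      have h1 : (volume : Measure (Fin 0 → ℝ)) Set.univ = 1 := by
        rw [volume_pi, Measure.pi_empty_univ]
      rw [lintegral_unique, h1, mul_one]
      exact congrArg f (Subsingleton.elim _ _)
    simp only [hu]
    simpa using h default default
  | succ n ih =>
    intro f₁ f₂ f₃ f₄ m₁ m₂ m₃ m₄ h
    have mp := (volume_preserving_piFinSuccAbove (fun _ : Fin (n + 1) => ℝ) 0).symm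
    set e := (MeasurableEquiv.piFinSuccAbove (fun _ : Fin (n + 1) => ℝ) 0).symm with he
    have hI : ∀ f : (Fin (n+1) → ℝ) → ℝ≥0∞, Measurable f →
        ∫⁻ x, f x = ∫⁻ z, f (e z) ∂((volume : Measure ℝ).prod (volume : Measure (Fin n → ℝ))) := by
      intro f hf
      exact (mp.lintegral_comp hf).symm
    rw [hI f₁ m₁, hI f₂ m₂, hI f₃ m₃, hI f₄ m₄]
    have hprod : FourFun ((volume : Measure ℝ).prod (volume : Measure (Fin n → ℝ))) :=
      (fourFun_linear volume).prod ih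
    refine hprod (fun z => f₁ (e z)) (fun z => f₂ (e z)) (fun z => f₃ (e z)) (fun z => f₄ (e z))
      (m₁.comp e.measurable) (m₂.comp e.measurable) (m₃.comp e.measurable)
      (m₄.comp e.measurable) ?_
    rintro ⟨a, u⟩ ⟨b, v⟩
    have hs : e ((a, u) ⊔ (b, v)) = e (a, u) ⊔ e (b, v) := by
      ext i
      refine Fin.cases ?_ (fun j => ?_) i <;>
      simp [he, MeasurableEquiv.piFinSuccAbove_symm_apply, Fin.insertNthEquiv, Prod.mk_sup_mk]
    have hi : e ((a, u) ⊓ (b, v)) = e (a, u) ⊓ e (b, v) := by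
      ext i
      refine Fin.cases ?_ (fun j => ?_) i <;>
      simp [he, MeasurableEquiv.piFinSuccAbove_symm_apply, Fin.insertNthEquiv, Prod.mk_inf_mk]
    rw [hs, hi]
    exact h _ _

end Pool.Agent.Hhelper24
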