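import Mathlib

set_option autoImplicit false

open MeasureTheory

namespace Pool.Agent.Hhelper24.Laguerre

/-- The weight of the problem. -/
noncomputable def P (n : ℕ) (x : Fin n → ℝ) : ℝ :=
  Real.exp (-∑ j, x j) * ∏ k, ∏ j ∈ Finset.Ioi k, (x j - x k) ^ 2

/-- The integrand with exponent `s`. -/
noncomputable def Phi (n : ℕ) (s t : ℝ) (x : Fin n → ℝ) : ℝ :=
  P n x * ∏ j, (x j + t) ^ s

/-- The sum of the reciprocals. -/
noncomputable def T (n : ℕ) (t : ℝ) (x : Fin n → ℝ) : ℝ := ∑ j, 1 / (x j + t)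

/-- The dominating function. -/
noncomputable def bnd (n : ℕ) (x : Fin n → ℝ) : ℝ :=
  ∏ j, (Real.exp (-x j) * (1 + x j) ^ (4 * n + 1) * (1 + (x j) ^ (-(1/2) : ℝ)))

lemma measurable_P (n : ℕ) : Measurable (P n) := by
  unfold P
  fun_prop

lemma measurable_Phi (n : ℕ) (s t : ℝ) : Measurable (Phi n s t) := by
  unfold Phi
  have := measurable_P n
  fun_prop

lemma measurable_T (n : ℕ) (t : ℝ) : Measurable (T n t) := by
  unfold T
  fun_prop

lemma P_nonneg (n : ℕ) (x : Fin n → ℝ) : 0 ≤ P n x := by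
  unfold P
  exact mul_nonneg (Real.exp_nonneg _)
    (Finset.prod_nonneg fun k _ => Finset.prod_nonneg fun j _ => sq_nonneg _)

/-- One dimensional integrability. -/
lemma integrable_one (m : ℕ) :
    IntegrableOn (fun x : ℝ => Real.exp (-x) * (1 + x) ^ m * (1 + x ^ (-(1/2) : ℝ)))
      (Set.Ici 0) := by
  rw [integrableOn_Ici_iff_integrableOn_Ioi]
  have h1 : ∀ k : ℕ, IntegrableOn (fun x : ℝ => Real.exp (-x) * x ^ k) (Set.Ioi 0) := by
    intro k
    have := Real.GammaIntegral_convergent (s := (k:ℝ) + 1) (by positivity)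
    refine this.congr_fun ?_ measurableSet_Ioi
    intro x hx
    simp
  have h2 : ∀ k : ℕ, IntegrableOn (fun x : ℝ => Real.exp (-x) * x ^ k * x ^ (-(1/2) : ℝ))
      (Set.Ioi 0) := by
    intro k
    have := Real.GammaIntegral_convergent (s := (k:ℝ) + 1/2) (by positivity)
    refine this.congr_fun ?_ measurableSet_Ioi
    intro x hx
    have hx' : (0:ℝ) < x := hx
    have : (k:ℝ) + 1/2 - 1 = (k:ℝ) + (-(1/2)) := by ring
    simp only [this, Real.rpow_add hx', Real.rpow_natCast, mul_assoc]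
  have e : (fun x : ℝ => Real.exp (-x) * (1 + x) ^ m * (1 + x ^ (-(1/2) : ℝ))) =
      fun x => ∑ k ∈ Finset.range (m + 1), ((m.choose k : ℝ) * (Real.exp (-x) * x ^ k)
        + (m.choose k : ℝ) * (Real.exp (-x) * x ^ k * x ^ (-(1/2) : ℝ))) := by
    funext x
    rw [add_comm (1:ℝ) x, add_pow, Finset.mul_sum, Finset.sum_mul]
    refine Finset.sum_congr rfl fun k _ => ?_
    simp only [one_pow]
    ring
  rw [e]
  refine integrable_finsetSum _ fun k _ => ?_
  exact ((h1 k).const_mul _).add ((h2 k).const_mul _)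

lemma integrable_bnd (n : ℕ) : IntegrableOn (bnd n) (Set.Ici 0) := by
  have h := Integrable.fintype_prod (ι := Fin n) (𝕜 := ℝ)
    (μ := fun _ => (volume : Measure ℝ).restrict (Set.Ici 0))
    (f := fun _ x => Real.exp (-x) * (1 + x) ^ (4 * n + 1) * (1 + x ^ (-(1/2) : ℝ)))
    (fun _ => integrable_one (4 * n + 1))
  have h2 : (volume : Measure (Fin n → ℝ)).restrict (Set.Ici 0)
      = Measure.pi fun _ : Fin n => (volume : Measure ℝ).restrict (Set.Ici 0) := by
    rw [← Measure.restrict_pi_pi, volume_pi, Set.pi_univ_Ici]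
    rfl
  rw [IntegrableOn, h2]
  exact h

lemma P_le (n : ℕ) (x : Fin n → ℝ) (hx : ∀ j, 0 ≤ x j) :
    P n x ≤ ∏ j, (Real.exp (-x j) * (1 + x j) ^ (4 * n)) := by
  unfold P
  rw [Finset.prod_mul_distrib, ← Real.exp_sum, Finset.sum_neg_distrib]
  refine mul_le_mul_of_nonneg_left ?_ (Real.exp_nonneg _)
  have h1 : ∀ j, 1 ≤ (1 + x j) ^ 2 := fun j => by nlinarith [hx j]
  have h1' : ∀ j, 0 ≤ (1 + x j) ^ 2 := fun j => sq_nonneg _
  calc ∏ k, ∏ j ∈ Finset.Ioi k, (x j - x k) ^ 2
      ≤ ∏ k : Fin n, ∏ j : Fin n, ((1 + x j) ^ 2 * (1 + x k) ^ 2) := by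
        refine Finset.prod_le_prod (fun k _ => Finset.prod_nonneg fun j _ => sq_nonneg _) ?_
        intro k _
        calc ∏ j ∈ Finset.Ioi k, (x j - x k) ^ 2
            ≤ ∏ j ∈ Finset.Ioi k, ((1 + x j) ^ 2 * (1 + x k) ^ 2) := by
              refine Finset.prod_le_prod (fun j _ => sq_nonneg _) ?_
              intro j _
              rw [← mul_pow]
              apply sq_le_sq'
              · nlinarith [hx j, hx k, mul_nonneg (hx j) (hx k)]
              · nlinarith [hx j, hx k, mul_nonneg (hx j) (hx k)]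
          _ ≤ ∏ j : Fin n, ((1 + x j) ^ 2 * (1 + x k) ^ 2) := by
              rw [← Finset.prod_mul_prod_compl (Finset.Ioi k)
                (fun j => (1 + x j) ^ 2 * (1 + x k) ^ 2)]
              refine le_mul_of_one_le_right
                (Finset.prod_nonneg fun j _ => mul_nonneg (h1' j) (h1' k)) ?_
              refine Finset.one_le_prod ?_
              intro j _
              exact one_le_mul_of_one_le_of_one_le (h1 j) (h1 k)
    _ = ∏ j, (1 + x j) ^ (4 * n) := by
        simp only [Finset.prod_mul_distrib, Finset.prod_const, Finset.card_univ, Fintype.card_fin]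
        rw [← Finset.prod_pow, ← Finset.prod_mul_distrib]
        refine Finset.prod_congr rfl fun j _ => ?_
        rw [show 4 * n = (2 + 2) * n by ring, pow_mul, pow_add, mul_pow]

lemma rpow_bound {s : ℝ} (hs : s = 1/2 ∨ s = -(1/2)) {t x : ℝ} (ht : 0 ≤ t) (hx : 0 < x) :
    (x + t) ^ s ≤ (1 + t) * ((1 + x) * (1 + x ^ (-(1/2) : ℝ))) := by
  have hp : 0 < x ^ (-(1/2) : ℝ) := Real.rpow_pos_of_pos hx _
  rcases hs with rfl | rfl
  · have h1 : (x + t) ^ (1/2 : ℝ) ≤ (1 + t) * (1 + x) := by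
      calc (x + t) ^ (1/2 : ℝ) ≤ (1 + x + t) ^ (1/2 : ℝ) := by
            apply Real.rpow_le_rpow (by positivity) (by linarith) (by norm_num)
        _ ≤ (1 + x + t) ^ (1 : ℝ) := by
            apply Real.rpow_le_rpow_of_exponent_le (by linarith) (by norm_num)
        _ = 1 + x + t := Real.rpow_one _
        _ ≤ (1 + t) * (1 + x) := by nlinarith
    calc (x + t) ^ (1/2 : ℝ) ≤ (1 + t) * (1 + x) := h1
      _ = (1 + t) * ((1 + x) * 1) := by ring
      _ ≤ (1 + t) * ((1 + x) * (1 + x ^ (-(1/2) : ℝ))) := by gcongr; linarith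
  · have h1 : (x + t) ^ (-(1/2) : ℝ) ≤ x ^ (-(1/2) : ℝ) :=
      Real.rpow_le_rpow_of_nonpos hx (by linarith) (by norm_num)
    calc (x + t) ^ (-(1/2) : ℝ) ≤ x ^ (-(1/2) : ℝ) := h1
      _ = 1 * (1 * x ^ (-(1/2) : ℝ)) := by ring
      _ ≤ (1 + t) * ((1 + x) * (1 + x ^ (-(1/2) : ℝ))) := by gcongr <;> linarith

lemma Phi_nonneg (n : ℕ) (s t : ℝ) (x : Fin n → ℝ) (hx : ∀ j, 0 ≤ x j + t) :
    0 ≤ Phi n s t x :=
  mul_nonneg (P_nonneg n x) (Finset.prod_nonneg fun j _ => Real.rpow_nonneg (hx j) _)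

lemma Phi_le (n : ℕ) {s : ℝ} (hs : s = 1/2 ∨ s = -(1/2)) {t : ℝ} (ht : 0 ≤ t) (x : Fin n → ℝ)
    (hx : ∀ j, 0 < x j) : Phi n s t x ≤ (1 + t) ^ n * bnd n x := by
  unfold Phi bnd
  calc P n x * ∏ j, (x j + t) ^ s
      ≤ (∏ j, (Real.exp (-x j) * (1 + x j) ^ (4 * n))) *
        ∏ j, ((1 + t) * ((1 + x j) * (1 + (x j) ^ (-(1/2) : ℝ)))) := by
        apply mul_le_mul (P_le n x fun j => (hx j).le)
        · exact Finset.prod_le_prod (fun j _ => Real.rpow_nonneg (by linarith [hx j]) _)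
            fun j _ => rpow_bound hs ht (hx j)
        · exact Finset.prod_nonneg fun j _ => Real.rpow_nonneg (by linarith [hx j]) _
        · exact Finset.prod_nonneg fun j _ => mul_nonneg (Real.exp_nonneg _)
            (pow_nonneg (by linarith [hx j]) _)
    _ = (1 + t) ^ n * ∏ j, (Real.exp (-x j) * (1 + x j) ^ (4 * n + 1) *
          (1 + (x j) ^ (-(1/2) : ℝ))) := by
        rw [← Finset.prod_mul_distrib]
        have : (1 + t) ^ n = ∏ _j : Fin n, (1 + t) := by simp
        rw [this, ← Finset.prod_mul_distrib]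
        refine Finset.prod_congr rfl fun j _ => ?_
        ring

lemma ae_pos (n : ℕ) : ∀ᵐ x : Fin n → ℝ ∂(volume.restrict (Set.Ici 0)), ∀ j, 0 < x j := by
  rw [ae_all_iff]
  intro j
  have h1 : ∀ᵐ x : Fin n → ℝ ∂(volume.restrict (Set.Ici 0)), x j ≠ 0 := by
    apply ae_restrict_of_ae
    rw [volume_pi]
    exact Measure.ae_eval_ne (fun _ => volume) j 0
  have h2 : ∀ᵐ x : Fin n → ℝ ∂(volume.restrict (Set.Ici 0)), x ∈ Set.Ici (0 : Fin n → ℝ) :=
    ae_restrict_mem measurableSet_Ici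
  filter_upwards [h1, h2] with x hx1 hx2
  exact lt_of_le_of_ne (hx2 j) (Ne.symm hx1)

lemma bnd_nonneg (n : ℕ) (x : Fin n → ℝ) (hx : ∀ j, 0 < x j) : 0 ≤ bnd n x := by
  unfold bnd
  refine Finset.prod_nonneg fun j _ => ?_
  have := hx j
  positivity

lemma integrable_Phi (n : ℕ) {s : ℝ} (hs : s = 1/2 ∨ s = -(1/2)) {t : ℝ} (ht : 0 ≤ t) :
    IntegrableOn (Phi n s t) (Set.Ici 0) := by
  refine Integrable.mono' ((integrable_bnd n).const_mul ((1 + t) ^ n))
    (measurable_Phi n s t).aestronglyMeasurable ?_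
  filter_upwards [ae_pos n] with x hx
  rw [Real.norm_of_nonneg (Phi_nonneg n s t x fun j => by linarith [hx j])]
  exact Phi_le n hs ht x hx

lemma T_nonneg (n : ℕ) {t : ℝ} (ht : 0 < t) (x : Fin n → ℝ) (hx : ∀ j, 0 < x j) :
    0 ≤ T n t x :=
  Finset.sum_nonneg fun j _ => div_nonneg zero_le_one (by linarith [hx j])

lemma T_le (n : ℕ) {t : ℝ} (ht : 0 < t) (x : Fin n → ℝ) (hx : ∀ j, 0 < x j) :
    T n t x ≤ n * (1 / t) := by
  unfold T
  calc ∑ j, 1 / (x j + t) ≤ ∑ _j : Fin n, 1 / t := by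
        refine Finset.sum_le_sum fun j _ => ?_
        apply one_div_le_one_div_of_le ht (by linarith [hx j])
    _ = n * (1 / t) := by simp

lemma integrable_Phi_mul_bdd (n : ℕ) {s : ℝ} (hs : s = 1/2 ∨ s = -(1/2)) {t : ℝ} (ht : 0 ≤ t)
    (g : (Fin n → ℝ) → ℝ) (hg : Measurable g) (C : ℝ) (hC : ∀ x, (∀ j, 0 < x j) → |g x| ≤ C) :
    IntegrableOn (fun x => Phi n s t x * g x) (Set.Ici 0) := by
  refine Integrable.mono' ((integrable_Phi n hs ht).mul_const C)
    ((measurable_Phi n s t).mul hg).aestronglyMeasurable ?_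
  filter_upwards [ae_pos n] with x hx
  rw [norm_mul, Real.norm_of_nonneg (Phi_nonneg n s t x fun j => by linarith [hx j])]
  exact mul_le_mul_of_nonneg_left (hC x hx) (Phi_nonneg n s t x fun j => by linarith [hx j])

lemma T_abs_le (n : ℕ) {t : ℝ} (ht : 0 < t) (x : Fin n → ℝ) (hx : ∀ j, 0 < x j) :
    |T n t x| ≤ n * (1 / t) := by
  rw [abs_of_nonneg (T_nonneg n ht x hx)]
  exact T_le n ht x hx

lemma continuousOn_int (n : ℕ) {s : ℝ} (hs : s = 1/2 ∨ s = -(1/2)) :
    ContinuousOn (fun t => ∫ x in Set.Ici 0, Phi n s t x) (Set.Ici 0) := by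
  intro t₀ ht₀
  have ht₀' : (0:ℝ) ≤ t₀ := ht₀
  refine continuousWithinAt_of_dominated (bound := fun x => (1 + (t₀ + 1)) ^ n * bnd n x) ?_ ?_
    ((integrable_bnd n).const_mul _) ?_
  · exact Filter.Eventually.of_forall fun t => (measurable_Phi n s t).aestronglyMeasurable
  · have h1 : ∀ᶠ t in nhdsWithin t₀ (Set.Ici 0), t < t₀ + 1 :=
      (eventually_lt_nhds (by linarith)).filter_mono nhdsWithin_le_nhds
    filter_upwards [h1, self_mem_nhdsWithin] with t ht1 ht2
    have ht2' : (0:ℝ) ≤ t := ht2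
    filter_upwards [ae_pos n] with x hx
    rw [Real.norm_of_nonneg (Phi_nonneg n s t x fun j => by linarith [hx j])]
    refine (Phi_le n hs ht2' x hx).trans ?_
    apply mul_le_mul_of_nonneg_right _ (bnd_nonneg n x hx)
    apply pow_le_pow_left₀ (by linarith) (by linarith)
  · filter_upwards [ae_pos n] with x hx
    apply ContinuousAt.continuousWithinAt
    unfold Phi
    apply ContinuousAt.mul continuousAt_const
    refine tendsto_finsetProd _ fun j _ => ?_
    have : ContinuousAt (fun t : ℝ => (x j + t) ^ s) t₀ := by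
      apply ContinuousAt.rpow_const (by fun_prop)
      left
      linarith [hx j]
    exact this

lemma hasDerivAt_Phi (n : ℕ) (s : ℝ) (x : Fin n → ℝ) (t : ℝ) (hx : ∀ j, 0 < x j + t) :
    HasDerivAt (fun t => Phi n s t x) (s * (Phi n s t x * T n t x)) t := by
  have h1 : ∀ j ∈ (Finset.univ : Finset (Fin n)),
      HasDerivAt (fun t : ℝ => (x j + t) ^ s) (s * (x j + t) ^ (s - 1)) t := by
    intro j _
    have h := (HasDerivAt.const_add (x j) (hasDerivAt_id t)).rpow_const (p := s)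
      (Or.inl (hx j).ne')
    simpa using h
  have h2 := (HasDerivAt.fun_finsetProd h1).const_mul (P n x)
  unfold Phi T
  refine h2.congr_deriv ?_
  rw [Finset.mul_sum, Finset.mul_sum, Finset.mul_sum]
  refine Finset.sum_congr rfl fun j _ => ?_
  rw [← Finset.mul_prod_erase Finset.univ (fun j => (x j + t) ^ s) (Finset.mem_univ j),
    Real.rpow_sub_one (hx j).ne', smul_eq_mul]
  field_simp

lemma hasDerivAt_int (n : ℕ) {s : ℝ} (hs : s = 1/2 ∨ s = -(1/2)) {t₀ : ℝ} (ht₀ : 0 < t₀) :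
    HasDerivAt (fun t => ∫ x in Set.Ici 0, Phi n s t x)
      (s * ∫ x in Set.Ici 0, Phi n s t₀ x * T n t₀ x) t₀ := by
  rw [← integral_const_mul]
  have hsabs : |s| ≤ 1 := by rcases hs with rfl | rfl <;> norm_num [abs_le]
  refine (hasDerivAt_integral_of_dominated_loc_of_deriv_le
    (F := fun t x => Phi n s t x) (F' := fun t x => s * (Phi n s t x * T n t x))
    (s := Set.Ioo (t₀ / 2) (2 * t₀))
    (bound := fun x => (1 + 2 * t₀) ^ n * bnd n x * (n * (1 / (t₀ / 2)))) ?_ ?_ ?_ ?_ ?_ ?_ ?_).2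
  · exact Ioo_mem_nhds (by linarith) (by linarith)
  · exact Filter.Eventually.of_forall fun t => (measurable_Phi n s t).aestronglyMeasurable
  · exact integrable_Phi n hs ht₀.le
  · exact ((((measurable_Phi n s t₀).mul (measurable_T n t₀))).const_mul s).aestronglyMeasurable
  · filter_upwards [ae_pos n] with x hx t ht
    have ht0 : 0 < t := by linarith [ht.1]
    have hP := Phi_nonneg n s t x fun j => by linarith [hx j]
    rw [norm_mul, norm_mul, Real.norm_of_nonneg hP, Real.norm_eq_abs, Real.norm_eq_abs]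
    have hT : |T n t x| ≤ n * (1 / (t₀ / 2)) := by
      refine (T_abs_le n ht0 x hx).trans ?_
      apply mul_le_mul_of_nonneg_left _ (Nat.cast_nonneg n)
      exact one_div_le_one_div_of_le (by linarith) ht.1.le
    have hB : Phi n s t x ≤ (1 + 2 * t₀) ^ n * bnd n x := by
      refine (Phi_le n hs ht0.le x hx).trans ?_
      apply mul_le_mul_of_nonneg_right _ (bnd_nonneg n x hx)
      apply pow_le_pow_left₀ (by linarith) (by linarith [ht.2])
    calc |s| * (Phi n s t x * |T n t x|) ≤ 1 * (Phi n s t x * |T n t x|) := by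
          apply mul_le_mul_of_nonneg_right hsabs (mul_nonneg hP (abs_nonneg _))
      _ = Phi n s t x * |T n t x| := one_mul _
      _ ≤ (1 + 2 * t₀) ^ n * bnd n x * (n * (1 / (t₀ / 2))) :=
          mul_le_mul hB hT (abs_nonneg _) (hP.trans hB)
  · exact ((integrable_bnd n).const_mul _).mul_const _
  · filter_upwards [ae_pos n] with x hx t ht
    exact hasDerivAt_Phi n s x t fun j => by linarith [hx j, ht.1]

end Pool.Agent.Hhelper24.Laguerre
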