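import Pool.Agent.Hhelper24.FKG
import Pool.Agent.Hhelper24.Chamber
import Pool.Agent.Hhelper24.LaguerreBounds

set_option autoImplicit false

open MeasureTheory

namespace Pool.Agent.Hhelper24.Laguerre

variable {n : ℕ}

/-- The open ordered chamber `0 < x_0 < x_1 < ...`. -/
def W (n : ℕ) : Set (Fin n → ℝ) := {x | StrictMono x ∧ ∀ j, 0 < x j}

lemma isOpen_W (n : ℕ) : IsOpen (W n) := by
  have : W n = (⋂ i : Fin n, ⋂ j : Fin n, ⋂ _ : i < j, {x : Fin n → ℝ | x i < x j}) ∩
      ⋂ j : Fin n, {x : Fin n → ℝ | 0 < x j} := by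
    ext x
    simp only [W, Set.mem_ofPred_eq, Set.mem_inter_iff, Set.mem_iInter]
    exact ⟨fun h => ⟨fun i j hij => h.1 hij, h.2⟩, fun h => ⟨fun i j hij => h.1 i j hij, h.2⟩⟩
  rw [this]
  refine IsOpen.inter ?_ ?_
  · exact isOpen_iInter_of_finite fun i => isOpen_iInter_of_finite fun j =>
      isOpen_iInter_of_finite fun _ => isOpen_lt (continuous_apply i) (continuous_apply j)
  · exact isOpen_iInter_of_finite fun j => isOpen_lt continuous_const (continuous_apply j)

lemma measurableSet_W (n : ℕ) : MeasurableSet (W n) := (isOpen_W n).measurableSet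

lemma sup_mem_W (x : Fin n → ℝ) (hx : x ∈ W n) (y : Fin n → ℝ) (hy : y ∈ W n) :
    x ⊔ y ∈ W n :=
  ⟨fun _ _ hij => max_lt_max (hx.1 hij) (hy.1 hij), fun j => lt_sup_of_lt_left (hx.2 j)⟩

lemma inf_mem_W (x : Fin n → ℝ) (hx : x ∈ W n) (y : Fin n → ℝ) (hy : y ∈ W n) :
    x ⊓ y ∈ W n :=
  ⟨fun _ _ hij => min_lt_min (hx.1 hij) (hy.1 hij), fun j => lt_inf_iff.mpr ⟨hx.2 j, hy.2 j⟩⟩

/-- The two point inequality. -/
lemma pair_ineq (a b c d : ℝ) :
    (b - a) * (d - c) ≤ (max b d - max a c) * (min b d - min a c) := by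
  rcases le_total b d with h | h <;> rcases le_total a c with h' | h' <;>
    simp only [max_eq_left h, max_eq_right h, min_eq_left h, min_eq_right h,
      max_eq_left h', max_eq_right h', min_eq_left h', min_eq_right h'] <;>
    nlinarith [mul_nonneg (sub_nonneg.mpr h) (sub_nonneg.mpr h')]

lemma P_supermodular (x : Fin n → ℝ) (hx : x ∈ W n) (y : Fin n → ℝ) (hy : y ∈ W n) :
    P n x * P n y ≤ P n (x ⊔ y) * P n (x ⊓ y) := by
  have hs := sup_mem_W x hx y hy
  have hi := inf_mem_W x hx y hy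
  unfold P
  have e1 : Real.exp (-∑ j, x j) * (∏ k, ∏ j ∈ Finset.Ioi k, (x j - x k) ^ 2) *
      (Real.exp (-∑ j, y j) * (∏ k, ∏ j ∈ Finset.Ioi k, (y j - y k) ^ 2)) =
      Real.exp (-∑ j, (x j + y j)) *
        ∏ k, ∏ j ∈ Finset.Ioi k, ((x j - x k) * (y j - y k)) ^ 2 := by
    simp only [mul_pow, Finset.prod_mul_distrib, Finset.sum_add_distrib, neg_add, Real.exp_add]
    ring
  have e2 : Real.exp (-∑ j, (x ⊔ y) j) *
      (∏ k, ∏ j ∈ Finset.Ioi k, ((x ⊔ y) j - (x ⊔ y) k) ^ 2) *
      (Real.exp (-∑ j, (x ⊓ y) j) * (∏ k, ∏ j ∈ Finset.Ioi k, ((x ⊓ y) j - (x ⊓ y) k) ^ 2)) =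
      Real.exp (-∑ j, (x j + y j)) *
        ∏ k, ∏ j ∈ Finset.Ioi k,
          (((x ⊔ y) j - (x ⊔ y) k) * ((x ⊓ y) j - (x ⊓ y) k)) ^ 2 := by
    have : ∑ j, (x j + y j) = ∑ j, (x ⊔ y) j + ∑ j, (x ⊓ y) j := by
      rw [← Finset.sum_add_distrib]
      refine Finset.sum_congr rfl fun j _ => ?_
      simp [max_add_min]
    rw [this]
    simp only [mul_pow, Finset.prod_mul_distrib, neg_add, Real.exp_add]
    ring
  rw [e1, e2]
  refine mul_le_mul_of_nonneg_left ?_ (Real.exp_nonneg _)
  refine Finset.prod_le_prod (fun k _ => Finset.prod_nonneg fun j _ => sq_nonneg _) fun k _ => ?_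
  refine Finset.prod_le_prod (fun j _ => sq_nonneg _) fun j hj => ?_
  have hkj : k < j := Finset.mem_Ioi.mp hj
  refine pow_le_pow_left₀ ?_ ?_ 2
  · exact mul_nonneg (by linarith [hx.1 hkj]) (by linarith [hy.1 hkj])
  · exact pair_ineq _ _ _ _

lemma Phi_supermodular (s : ℝ) {t : ℝ} (ht : 0 < t) (x : Fin n → ℝ) (hx : x ∈ W n)
    (y : Fin n → ℝ) (hy : y ∈ W n) :
    Phi n s t x * Phi n s t y ≤ Phi n s t (x ⊔ y) * Phi n s t (x ⊓ y) := by
  unfold Phi
  have key : (∏ j, (x j + t) ^ s) * (∏ j, (y j + t) ^ s) =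
      (∏ j, ((x ⊔ y) j + t) ^ s) * (∏ j, ((x ⊓ y) j + t) ^ s) := by
    rw [← Finset.prod_mul_distrib, ← Finset.prod_mul_distrib]
    refine Finset.prod_congr rfl fun j _ => ?_
    rcases le_total (x j) (y j) with h | h
    · simp [h, mul_comm]
    · simp [h]
  calc P n x * (∏ j, (x j + t) ^ s) * (P n y * ∏ j, (y j + t) ^ s)
      = (P n x * P n y) * ((∏ j, (x j + t) ^ s) * (∏ j, (y j + t) ^ s)) := by ring
    _ ≤ (P n (x ⊔ y) * P n (x ⊓ y)) *
        ((∏ j, (x j + t) ^ s) * (∏ j, (y j + t) ^ s)) := by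
        refine mul_le_mul_of_nonneg_right (P_supermodular x hx y hy) ?_
        exact mul_nonneg (Finset.prod_nonneg fun j _ => Real.rpow_nonneg (by linarith [hx.2 j]) _)
          (Finset.prod_nonneg fun j _ => Real.rpow_nonneg (by linarith [hy.2 j]) _)
    _ = _ := by rw [key]; ring

/-- The product `D`. -/
noncomputable def D (n : ℕ) (t : ℝ) (x : Fin n → ℝ) : ℝ := ∏ j, (x j + t)

lemma measurable_D (n : ℕ) (t : ℝ) : Measurable (D n t) := by
  unfold D
  fun_prop

lemma D_nonneg {t : ℝ} (ht : 0 < t) (x : Fin n → ℝ) (hx : ∀ j, 0 < x j) : 0 ≤ D n t x :=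
  Finset.prod_nonneg fun j _ => by linarith [hx j]

lemma T_antitone {t : ℝ} (ht : 0 < t) (x : Fin n → ℝ) (hx : ∀ j, 0 < x j) (y : Fin n → ℝ)
    (hxy : x ≤ y) : T n t y ≤ T n t x := by
  unfold T
  refine Finset.sum_le_sum fun j _ => ?_
  exact one_div_le_one_div_of_le (by linarith [hx j]) (by linarith [hxy j])

lemma prod_add_ge {ι : Type*} (s : Finset ι) {t : ℝ} (ht : 0 < t) (a δ : ι → ℝ)
    (ha : ∀ i, t ≤ a i) (hδ : ∀ i, 0 ≤ δ i) :
    t * ∏ i ∈ s, a i + t ^ s.card * ∑ i ∈ s, δ i ≤ t * ∏ i ∈ s, (a i + δ i) := by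
  classical
  induction s using Finset.induction_on with
  | empty => simp
  | insert i s hi ih =>
    rw [Finset.prod_insert hi, Finset.prod_insert hi, Finset.sum_insert hi,
      Finset.card_insert_of_notMem hi]
    have hp : t ^ s.card ≤ ∏ i ∈ s, a i := by
      rw [← Finset.prod_const]
      exact Finset.prod_le_prod (fun _ _ => ht.le) fun i _ => ha i
    have hS : 0 ≤ ∑ i ∈ s, δ i := Finset.sum_nonneg fun i _ => hδ i
    have htc : 0 < t ^ s.card := pow_pos ht _
    have h0 : 0 ≤ a i + δ i := by linarith [ha i, hδ i]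
    have h1 := mul_le_mul_of_nonneg_left ih h0
    have h2 : t * t ^ s.card * δ i ≤ t * δ i * ∏ i ∈ s, a i := by
      have := mul_le_mul_of_nonneg_left hp (mul_nonneg ht.le (hδ i))
      linarith [this]
    have h3 : t * (t ^ s.card * ∑ i ∈ s, δ i) ≤ (a i + δ i) * (t ^ s.card * ∑ i ∈ s, δ i) := by
      apply mul_le_mul_of_nonneg_right _ (mul_nonneg htc.le hS)
      linarith [ha i, hδ i]
    calc t * (a i * ∏ i ∈ s, a i) + t ^ (s.card + 1) * (δ i + ∑ i ∈ s, δ i)
        = a i * (t * ∏ i ∈ s, a i) + t * t ^ s.card * δ i + t * (t ^ s.card * ∑ i ∈ s, δ i) := by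
          ring
      _ ≤ a i * (t * ∏ i ∈ s, a i) + t * δ i * ∏ i ∈ s, a i +
          (a i + δ i) * (t ^ s.card * ∑ i ∈ s, δ i) := by linarith
      _ = (a i + δ i) * (t * ∏ i ∈ s, a i + t ^ s.card * ∑ i ∈ s, δ i) := by ring
      _ ≤ (a i + δ i) * (t * ∏ i ∈ s, (a i + δ i)) := h1
      _ = t * ((a i + δ i) * ∏ i ∈ s, (a i + δ i)) := by ring

/-- `D + t^(n+1) T` is monotone on the positive orthant. -/
lemma K_monotone {t : ℝ} (ht : 0 < t) (x : Fin n → ℝ) (hx : ∀ j, 0 < x j) (y : Fin n → ℝ)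
    (hxy : x ≤ y) :
    D n t x + t ^ (n + 1) * T n t x ≤ D n t y + t ^ (n + 1) * T n t y := by
  have h1 := prod_add_ge (Finset.univ : Finset (Fin n)) ht (fun j => x j + t)
    (fun j => y j - x j) (fun j => by linarith [hx j]) (fun j => by linarith [hxy j])
  have h2 : T n t x - T n t y ≤ (1 / t ^ 2) * ∑ j, (y j - x j) := by
    unfold T
    rw [← Finset.sum_sub_distrib, Finset.mul_sum]
    refine Finset.sum_le_sum fun j _ => ?_
    have a1 : 0 < x j + t := by linarith [hx j]
    have a2 : 0 < y j + t := by linarith [hx j, hxy j]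
    have a3 : t ^ 2 ≤ (x j + t) * (y j + t) := by nlinarith [hx j, hxy j]
    have a4 : 1 / (x j + t) - 1 / (y j + t) = (y j - x j) / ((x j + t) * (y j + t)) := by
      field_simp
      ring
    rw [a4, one_div, inv_mul_eq_div]
    exact div_le_div_of_nonneg_left (by linarith [hxy j]) (by positivity) a3
  have e1 : ∏ j, (x j + t + (y j - x j)) = D n t y := by
    unfold D
    refine Finset.prod_congr rfl fun j _ => by ring
  rw [Finset.card_univ, Fintype.card_fin] at h1
  have h3 : t * D n t x + t ^ n * ∑ j, (y j - x j) ≤ t * D n t y := by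
    rw [← e1]; exact h1
  have h4 : t ^ (n + 1) * (T n t x - T n t y) ≤ t ^ (n + 1) * ((1 / t ^ 2) * ∑ j, (y j - x j)) :=
    mul_le_mul_of_nonneg_left h2 (by positivity)
  have h5 : t * (t ^ (n + 1) * ((1 / t ^ 2) * ∑ j, (y j - x j))) = t ^ n * ∑ j, (y j - x j) := by
    field_simp
    ring
  have h6 : t * (t ^ (n + 1) * (T n t x - T n t y)) ≤ t ^ n * ∑ j, (y j - x j) := by
    rw [← h5]
    exact mul_le_mul_of_nonneg_left h4 ht.le
  have h7 : t * (D n t x + t ^ (n + 1) * T n t x) ≤ t * (D n t y + t ^ (n + 1) * T n t y) := by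
    nlinarith
  exact le_of_mul_le_mul_left h7 ht

lemma Phi_pos_of_mem_W (s : ℝ) {t : ℝ} (ht : 0 < t) (x : Fin n → ℝ) (hx : x ∈ W n) :
    0 < Phi n s t x := by
  unfold Phi P
  refine mul_pos (mul_pos (Real.exp_pos _) ?_) ?_
  · refine Finset.prod_pos fun k _ => Finset.prod_pos fun j hj => ?_
    have hkj : k < j := Finset.mem_Ioi.mp hj
    have := hx.1 hkj
    exact pow_pos (by linarith) 2
  · exact Finset.prod_pos fun j _ => Real.rpow_pos_of_pos (by linarith [hx.2 j]) _

lemma W_subset_Ici : W n ⊆ Set.Ici 0 := fun _ hx j => (hx.2 j).le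

/-- A base point of the chamber. -/
lemma base_mem_W (c : ℝ) (hc : 0 < c) : (fun j : Fin n => c + (j : ℝ)) ∈ W n := by
  refine ⟨fun i j hij => ?_, fun j => by positivity⟩
  have : (i : ℝ) < (j : ℝ) := by exact_mod_cast hij
  simpa using this

/-- Strict positivity of the variance of `T` on the chamber. -/
lemma var_pos (hn : 1 ≤ n) {t : ℝ} (ht : 0 < t) :
    (∫ x in W n, Phi n (-(1/2)) t x * T n t x) ^ 2 <
      (∫ x in W n, Phi n (-(1/2)) t x * (T n t x * T n t x)) *
        (∫ x in W n, Phi n (-(1/2)) t x) := by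
  have hs : (-(1/2) : ℝ) = 1/2 ∨ (-(1/2) : ℝ) = -(1/2) := Or.inr rfl
  have i0 : IntegrableOn (Phi n (-(1/2)) t) (W n) :=
    (integrable_Phi n hs ht.le).mono_set W_subset_Ici
  have i1 : IntegrableOn (fun x => Phi n (-(1/2)) t x * T n t x) (W n) :=
    (integrable_Phi_mul_bdd n hs ht.le (T n t) (measurable_T n t) _
      (T_abs_le n ht)).mono_set W_subset_Ici
  have i2 : IntegrableOn (fun x => Phi n (-(1/2)) t x * (T n t x * T n t x)) (W n) := by
    refine (integrable_Phi_mul_bdd n hs ht.le (fun x => T n t x * T n t x)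
      ((measurable_T n t).mul (measurable_T n t)) ((n * (1 / t)) * (n * (1 / t))) ?_).mono_set
      W_subset_Ici
    intro x hx
    rw [abs_mul]
    exact mul_le_mul (T_abs_le n ht x hx) (T_abs_le n ht x hx) (abs_nonneg _)
      (by positivity)
  set m0 := ∫ x in W n, Phi n (-(1/2)) t x with hm0
  set m1 := ∫ x in W n, Phi n (-(1/2)) t x * T n t x with hm1
  set m2 := ∫ x in W n, Phi n (-(1/2)) t x * (T n t x * T n t x) with hm2
  -- positivity of `m0`
  have hopen : ∀ U : Set (Fin n → ℝ), IsOpen U → U.Nonempty → 0 < volume U :=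
    fun U hU hne => hU.measure_pos volume hne
  have m0pos : 0 < m0 := by
    rw [hm0, setIntegral_pos_iff_support_of_nonneg_ae]
    · refine lt_of_lt_of_le (hopen (W n) (isOpen_W n) ⟨_, base_mem_W 1 one_pos⟩)
        (measure_mono ?_)
      intro x hx
      exact ⟨(Phi_pos_of_mem_W _ ht x hx).ne', hx⟩
    · filter_upwards [ae_restrict_mem (measurableSet_W n)] with x hx
      exact (Phi_pos_of_mem_W _ ht x hx).le
    · exact i0
  -- the square
  have isq : IntegrableOn (fun x => Phi n (-(1/2)) t x * (m0 * T n t x - m1) ^ 2) (W n) := by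
    have e : (fun x => Phi n (-(1/2)) t x * (m0 * T n t x - m1) ^ 2) = fun x =>
        m0 ^ 2 * (Phi n (-(1/2)) t x * (T n t x * T n t x)) -
        (2 * m0 * m1) * (Phi n (-(1/2)) t x * T n t x) + m1 ^ 2 * Phi n (-(1/2)) t x := by
      funext x; ring
    rw [e]
    exact ((i2.const_mul _).sub (i1.const_mul _)).add (i0.const_mul _)
  have hsq : ∫ x in W n, Phi n (-(1/2)) t x * (m0 * T n t x - m1) ^ 2 =
      m0 * (m2 * m0 - m1 ^ 2) := by
    have e : (fun x => Phi n (-(1/2)) t x * (m0 * T n t x - m1) ^ 2) = fun x =>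
        m0 ^ 2 * (Phi n (-(1/2)) t x * (T n t x * T n t x)) -
        (2 * m0 * m1) * (Phi n (-(1/2)) t x * T n t x) + m1 ^ 2 * Phi n (-(1/2)) t x := by
      funext x; ring
    have j2 := i2.const_mul (m0 ^ 2)
    have j1 := i1.const_mul (2 * m0 * m1)
    have j0 := i0.const_mul (m1 ^ 2)
    have j21 : Integrable (fun x => m0 ^ 2 * (Phi n (-(1/2)) t x * (T n t x * T n t x)) -
        (2 * m0 * m1) * (Phi n (-(1/2)) t x * T n t x)) (volume.restrict (W n)) := j2.sub j1
    rw [e, integral_add j21 j0, integral_sub j2 j1, integral_const_mul, integral_const_mul,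
      integral_const_mul, ← hm0, ← hm1, ← hm2]
    ring
  have hpos : 0 < ∫ x in W n, Phi n (-(1/2)) t x * (m0 * T n t x - m1) ^ 2 := by
    rw [setIntegral_pos_iff_support_of_nonneg_ae]
    · -- an open set where the square is nonzero
      have hcont : ContinuousOn (fun x => m0 * T n t x - m1) (W n) := by
        unfold T
        refine ContinuousOn.sub (ContinuousOn.mul continuousOn_const ?_) continuousOn_const
        refine continuousOn_finsetSum _ fun j _ => ?_
        refine ContinuousOn.div continuousOn_const (by fun_prop) ?_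
        intro x hx
        have := hx.2 j
        positivity
      have hU : IsOpen (W n ∩ (fun x => m0 * T n t x - m1) ⁻¹' {0}ᶜ) :=
        hcont.isOpen_inter_preimage (isOpen_W n) isOpen_compl_singleton
      have hne : (W n ∩ (fun x => m0 * T n t x - m1) ⁻¹' {0}ᶜ).Nonempty := by
        by_contra hcon
        rw [Set.not_nonempty_iff_eq_empty] at hcon
        have hz : ∀ x ∈ W n, m0 * T n t x - m1 = 0 := by
          intro x hx
          by_contra hx0
          have : x ∈ W n ∩ (fun x => m0 * T n t x - m1) ⁻¹' {0}ᶜ := ⟨hx, hx0⟩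
          rw [hcon] at this
          exact this
        have h1 := hz _ (base_mem_W 1 one_pos)
        have h2 := hz _ (base_mem_W 2 two_pos)
        have h3 : T n t (fun j : Fin n => (2:ℝ) + (j:ℝ)) < T n t (fun j : Fin n => (1:ℝ) + (j:ℝ)) := by
          unfold T
          have : Nonempty (Fin n) := ⟨⟨0, hn⟩⟩
          refine Finset.sum_lt_sum_of_nonempty Finset.univ_nonempty fun j _ => ?_
          apply one_div_lt_one_div_of_lt
          · positivity
          · linarith
        nlinarith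
      refine lt_of_lt_of_le (hopen _ hU hne) (measure_mono ?_)
      rintro x ⟨hx, hx2⟩
      refine ⟨?_, hx⟩
      exact mul_ne_zero (Phi_pos_of_mem_W _ ht x hx).ne' (pow_ne_zero 2 hx2)
    · filter_upwards [ae_restrict_mem (measurableSet_W n)] with x hx
      exact mul_nonneg (Phi_pos_of_mem_W _ ht x hx).le (sq_nonneg _)
    · exact isq
  rw [hsq] at hpos
  have := (mul_pos_iff_of_pos_left m0pos).mp hpos
  linarith

lemma Phi_half_eq {t : ℝ} (ht : 0 < t) (x : Fin n → ℝ) (hx : ∀ j, 0 < x j) :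
    Phi n (1/2) t x = Phi n (-(1/2)) t x * D n t x := by
  unfold Phi D
  rw [mul_assoc, ← Finset.prod_mul_distrib]
  congr 1
  refine Finset.prod_congr rfl fun j _ => ?_
  have h : 0 < x j + t := by linarith [hx j]
  nth_rewrite 3 [← Real.rpow_one (x j + t)]
  rw [← Real.rpow_add h]
  norm_num

/-- The covariance inequality on the chamber. -/
lemma cov_neg (hn : 1 ≤ n) {t : ℝ} (ht : 0 < t) :
    (∫ x in W n, Phi n (1/2) t x * T n t x) * (∫ x in W n, Phi n (-(1/2)) t x) <
      (∫ x in W n, Phi n (1/2) t x) * (∫ x in W n, Phi n (-(1/2)) t x * T n t x) := by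
  have hs : (-(1/2) : ℝ) = 1/2 ∨ (-(1/2) : ℝ) = -(1/2) := Or.inr rfl
  have hs' : (1/2 : ℝ) = 1/2 ∨ (1/2 : ℝ) = -(1/2) := Or.inl rfl
  set c : ℝ := t ^ (n + 1) with hc
  have cpos : 0 < c := by positivity
  have i1 : IntegrableOn (fun x => Phi n (-(1/2)) t x * T n t x) (W n) :=
    (integrable_Phi_mul_bdd n hs ht.le (T n t) (measurable_T n t) _
      (T_abs_le n ht)).mono_set W_subset_Ici
  have i2 : IntegrableOn (fun x => Phi n (-(1/2)) t x * (T n t x * T n t x)) (W n) := by
    refine (integrable_Phi_mul_bdd n hs ht.le (fun x => T n t x * T n t x)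
      ((measurable_T n t).mul (measurable_T n t)) ((n * (1 / t)) * (n * (1 / t))) ?_).mono_set
      W_subset_Ici
    intro x hx
    rw [abs_mul]
    exact mul_le_mul (T_abs_le n ht x hx) (T_abs_le n ht x hx) (abs_nonneg _)
      (by positivity)
  have i3 : IntegrableOn (fun x => Phi n (1/2) t x) (W n) :=
    (integrable_Phi n hs' ht.le).mono_set W_subset_Ici
  have i4 : IntegrableOn (fun x => Phi n (1/2) t x * T n t x) (W n) :=
    (integrable_Phi_mul_bdd n hs' ht.le (T n t) (measurable_T n t) _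
      (T_abs_le n ht)).mono_set W_subset_Ici
  have i3' : IntegrableOn (fun x => Phi n (-(1/2)) t x * D n t x) (W n) :=
    i3.congr_fun (fun x hx => Phi_half_eq ht x hx.2) (measurableSet_W n)
  have i4' : IntegrableOn (fun x => Phi n (-(1/2)) t x * (T n t x * D n t x)) (W n) := by
    refine i4.congr_fun (fun x hx => ?_) (measurableSet_W n)
    simp only [Phi_half_eq ht x hx.2]
    ring
  have e3 : ∫ x in W n, Phi n (1/2) t x = ∫ x in W n, Phi n (-(1/2)) t x * D n t x :=
    setIntegral_congr_fun (measurableSet_W n) fun x hx => Phi_half_eq ht x hx.2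
  have e4 : ∫ x in W n, Phi n (1/2) t x * T n t x =
      ∫ x in W n, Phi n (-(1/2)) t x * (T n t x * D n t x) := by
    refine setIntegral_congr_fun (measurableSet_W n) fun x hx => ?_
    simp only [Phi_half_eq ht x hx.2]
    ring
  rw [e3, e4]
  have hfkg := fkg_setIntegral (W := W n) (q := Phi n (-(1/2)) t) (T := T n t)
    (K := fun x => D n t x + c * T n t x) (measurableSet_W n) sup_mem_W inf_mem_W
    (measurable_Phi _ _ _) (measurable_T _ _)
    ((measurable_D n t).add ((measurable_T n t).const_mul c))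
    (fun x hx => (Phi_pos_of_mem_W _ ht x hx).le) (fun x hx => T_nonneg n ht x hx.2)
    (fun x hx => add_nonneg (D_nonneg ht x hx.2) (mul_nonneg cpos.le (T_nonneg n ht x hx.2)))
    (Phi_supermodular _ ht) (fun x hx y _ hxy => T_antitone ht x hx.2 y hxy)
    (fun x hx y _ hxy => K_monotone ht x hx.2 y hxy)
    (by
      have e : (fun x => Phi n (-(1/2)) t x * (D n t x + c * T n t x)) = fun x =>
        Phi n (-(1/2)) t x * D n t x + c * (Phi n (-(1/2)) t x * T n t x) := by
        funext x; ring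
      rw [e]
      exact i3'.add (i1.const_mul c)) i1
  have f1 : ∫ x in W n, Phi n (-(1/2)) t x * (T n t x * (D n t x + c * T n t x)) =
      (∫ x in W n, Phi n (-(1/2)) t x * (T n t x * D n t x)) +
        c * ∫ x in W n, Phi n (-(1/2)) t x * (T n t x * T n t x) := by
    rw [← integral_const_mul, ← integral_add i4' (i2.const_mul c)]
    refine integral_congr_ae (Filter.Eventually.of_forall fun x => ?_)
    simp only
    ring
  have f2 : ∫ x in W n, Phi n (-(1/2)) t x * (D n t x + c * T n t x) =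
      (∫ x in W n, Phi n (-(1/2)) t x * D n t x) +
        c * ∫ x in W n, Phi n (-(1/2)) t x * T n t x := by
    rw [← integral_const_mul, ← integral_add i3' (i1.const_mul c)]
    refine integral_congr_ae (Filter.Eventually.of_forall fun x => ?_)
    simp only
    ring
  rw [f1, f2] at hfkg
  have hv := var_pos hn ht
  nlinarith

/-! ### Symmetrisation -/

lemma P_perm (σ : Equiv.Perm (Fin n)) (x : Fin n → ℝ) : P n (x ∘ σ) = P n x := by
  have h : ∀ v : Fin n → ℝ, ∏ k, ∏ j ∈ Finset.Ioi k, (v j - v k) ^ 2 =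
      (Matrix.det (Matrix.vandermonde v)) ^ 2 := by
    intro v
    rw [Matrix.det_vandermonde]
    simp only [Finset.prod_pow]
  unfold P
  rw [h, h]
  have h1 : Matrix.vandermonde (x ∘ σ) = (Matrix.vandermonde x).submatrix σ id := by
    ext i j
    simp [Matrix.vandermonde_apply]
  rw [h1, Matrix.det_permute, mul_pow]
  have h2 : (((Equiv.Perm.sign σ : ℤ) : ℝ)) ^ 2 = 1 := by
    rcases Int.units_eq_one_or (Equiv.Perm.sign σ) with h | h <;> simp [h]
  rw [h2, one_mul]
  congr 2
  simp only [Function.comp_apply]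
  rw [Equiv.sum_comp σ x]

lemma Phi_perm (s t : ℝ) (σ : Equiv.Perm (Fin n)) (x : Fin n → ℝ) :
    Phi n s t (x ∘ σ) = Phi n s t x := by
  unfold Phi
  rw [P_perm]
  congr 1
  exact Equiv.prod_comp σ fun j => (x j + t) ^ s

lemma T_perm (t : ℝ) (σ : Equiv.Perm (Fin n)) (x : Fin n → ℝ) :
    T n t (x ∘ σ) = T n t x :=
  Equiv.sum_comp σ fun j => 1 / (x j + t)

lemma integral_Ici_eq (g : (Fin n → ℝ) → ℝ) (hg : IntegrableOn g (Set.Ici 0))
    (hsym : ∀ (σ : Equiv.Perm (Fin n)) (x : Fin n → ℝ), g (x ∘ σ) = g x) :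
    ∫ x in Set.Ici 0, g x = (n.factorial : ℝ) * ∫ x in W n, g x := by
  have hm : MeasurableSet (Set.Ici (0 : Fin n → ℝ)) := measurableSet_Ici
  rw [← integral_indicator hm, integral_eq_factorial_mul_chamber]
  · congr 1
    rw [setIntegral_indicator hm]
    apply setIntegral_congr_set
    have : ∀ᵐ x : Fin n → ℝ, ∀ j, x j ≠ 0 := by
      rw [ae_all_iff]
      intro j
      rw [volume_pi]
      exact Measure.ae_eval_ne (fun _ => volume) j 0
    filter_upwards [this] with x hx
    apply propext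
    constructor
    · rintro ⟨h1, h2⟩
      exact ⟨h1, fun j => lt_of_le_of_ne (h2 j) (Ne.symm (hx j))⟩
    · rintro ⟨h1, h2⟩
      exact ⟨h1, fun j => (h2 j).le⟩
  · rw [integrable_indicator_iff hm]
    exact hg
  · intro σ x
    by_cases hx : x ∈ Set.Ici (0 : Fin n → ℝ)
    · have : x ∘ σ ∈ Set.Ici (0 : Fin n → ℝ) := fun j => hx (σ j)
      rw [Set.indicator_of_mem hx, Set.indicator_of_mem this, hsym]
    · have : x ∘ σ ∉ Set.Ici (0 : Fin n → ℝ) := by
        intro h
        apply hx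
        intro j
        have := h (σ.symm j)
        simpa using this
      rw [Set.indicator_of_notMem hx, Set.indicator_of_notMem this]

/-- The main covariance inequality over the orthant. -/
theorem main_neg (hn : 1 ≤ n) {t : ℝ} (ht : 0 < t) :
    (∫ x in Set.Ici 0, Phi n (1/2) t x * T n t x) * (∫ x in Set.Ici 0, Phi n (-(1/2)) t x) <
      (∫ x in Set.Ici 0, Phi n (1/2) t x) *
        (∫ x in Set.Ici 0, Phi n (-(1/2)) t x * T n t x) := by
  have hs : (-(1/2) : ℝ) = 1/2 ∨ (-(1/2) : ℝ) = -(1/2) := Or.inr rfl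
  have hs' : (1/2 : ℝ) = 1/2 ∨ (1/2 : ℝ) = -(1/2) := Or.inl rfl
  have hsym : ∀ s : ℝ, ∀ (σ : Equiv.Perm (Fin n)) (x : Fin n → ℝ),
      Phi n s t (x ∘ σ) * T n t (x ∘ σ) = Phi n s t x * T n t x := by
    intro s σ x
    rw [Phi_perm, T_perm]
  rw [integral_Ici_eq _ (integrable_Phi_mul_bdd n hs' ht.le (T n t) (measurable_T n t) _
      (T_abs_le n ht)) (hsym _),
    integral_Ici_eq _ (integrable_Phi_mul_bdd n hs ht.le (T n t) (measurable_T n t) _
      (T_abs_le n ht)) (hsym _),
    integral_Ici_eq _ (integrable_Phi n hs ht.le) (Phi_perm _ _),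
    integral_Ici_eq _ (integrable_Phi n hs' ht.le) (Phi_perm _ _)]
  have h := cov_neg hn ht
  have hf : (0:ℝ) < n.factorial := by exact_mod_cast n.factorial_pos
  have := mul_lt_mul_of_pos_left h (mul_pos hf hf)
  nlinarith

end Pool.Agent.Hhelper24.Laguerre
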